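import Pool.Agent.H896.SI.Cn0
import Pool.Graph.R_pool_sql_team_seeded_3997aac3.Q20.SI.All
import Pool.Graph.R_pool_sql_team_seeded_3997aac3.Q277.SI.Ram
import Pool.Graph.R_pool_sql_team_seeded_3997aac3.Q123.SI.Nsp
import Pool.Graph.R_pool_sql_team_seeded_3997aac3.Q182.SI.Aux182
import Pool.Graph.R_pool_sql_team_seeded_3997aac3.Q223.SI.Rga
import Pool.Graph.R_pool_sql_team_seeded_3997aac3.Q223.SI.Rgb
import Pool.Graph.R_pool_sql_team_seeded_3997aac3.Q176.SI.Rgt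
import Pool.Graph.R_pool_sql_team_seeded_3997aac3.Q214.SI.Kerf
import Pool.Graph.R_pool_sql_team_seeded_3997aac3.Q123.SI.Unk
import Pool.Graph.R_pool_sql_team_seeded_3997aac3.Q20.SI.Row1q
import Pool.Graph.R_pool_sql_team_seeded_3997aac3.Q20.SI.Row3p
import Pool.Graph.R_pool_sql_team_seeded_3997aac3.Q20.SI.Row4p
import Pool.Graph.R_pool_sql_team_seeded_3997aac3.Q20.SI.Mixp

set_option autoImplicit false

namespace Pool.Agent.H896.SI
open Pool.Agent.Q20.SI

theorem aCMP : S_CMP := cmpT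
theorem aREG : S_REG := Pool.Agent.Q176.SI.reg
theorem aLFN : S_LFN := Pool.Agent.Q123.SI.lfn
theorem aORB : S_ORB := orb
theorem aEXI : S_EXI := exi
theorem aRAM : S_RAM := Pool.Agent.Q277.SI.ram
theorem aNSP : S_NSP := Pool.Agent.Q123.SI.Nsp.nsp
theorem aAUX : S_AUX := Pool.Agent.Q182.SI.auxp
theorem aRGA : S_RGA := Pool.Agent.Q223.SI.rga
theorem aRGB : S_RGB := Pool.Agent.Q223.SI.rgb
theorem aRGT : S_RGT := Pool.Agent.Q176.SI.rgt
theorem aKER : S_KER := Pool.Agent.Q214.SI.ker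
theorem aUNK : S_UNK := Pool.Agent.Q123.SI.Unk.unk

end Pool.Agent.H896.SI
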