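import Pool.Graph.R_pool_sql_team_seeded_3997aac3.Q20.SI.Stm3
import Pool.Graph.R_pool_sql_team_seeded_3997aac3.Q20.RS.Cnt
import Pool.Graph.R_pool_sql_team_seeded_3997aac3.Q92.AR.ZFe
import Pool.Graph.R_pool_sql_team_seeded_3997aac3.Q92.FE.Zeta

/-!
# The leading coefficient of the Dedekind zeta function at `s = 0`

`S_CN0` of the library project `Q20/SI`: the class number formula at `s = 0`.
-/

set_option autoImplicit false
set_option linter.unusedSectionVars false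

namespace Pool.Agent.H896.SI

open NumberField IsDedekindDomain Filter Topology Complex
open Pool.Agent.Q20.RS Pool.Agent.Q20.SI
open Pool.Agent.Q92.AR (Continues cont cont_spec zeta_eq_LP gI_hasSum LP)
open Pool.Agent.Q92.FE (tr tr_uc tr_triv gam_eq)
open Pool.Agent.Q92.PA (pl)
open Pool.Agent.Y773 (LI GG)
open scoped ComplexConjugate

section
variable (F : Type) [Field F] [NumberField F]

/-- `|d|` as a complex number -/
noncomputable def dd : ℂ := (((|(discr F : ℝ)| : ℝ)) : ℂ)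

theorem dd_ne : dd F ≠ 0 := by
  have h1 : (discr F : ℝ) ≠ 0 := by exact_mod_cast discr_ne_zero F
  unfold dd
  exact_mod_cast abs_ne_zero.2 h1

theorem LI_zeta {s : ℂ} (hs : 1 < s.re) : LI (tr F) s = dedekindZeta F s := by
  classical
  rw [← (gI_hasSum (F := F) hs).tsum_eq]
  unfold LI
  refine tsum_congr fun I => ?_
  unfold Pool.Agent.Q92.AR.gI
  by_cases h : I = ⊥
  · have h1 : tr F ⊥ = 0 := if_pos rfl
    rw [if_pos h, h, h1, zero_mul]
  · rw [if_neg h, Pool.Agent.Q92.FE.tr_ne F h, one_mul]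

/-- **The functional equation of the Dedekind zeta function.** -/
theorem zeta_fe1 : ∃ U : ℂ → ℂ, Differentiable ℂ U ∧ (∀ s : ℂ, U s = conj (U (1 - conj s))) ∧
    ∀ s : ℂ, 1 < s.re → U s = s * (s - 1) * (dd F ^ (s / 2) *
      (Gammaℝ s ^ pl F * Gammaℝ (s + 1) ^ (Module.finrank ℚ F - pl F))) *
        dedekindZeta F s := by
  classical
  obtain ⟨U, w, h1, h2, h3, h4, h5⟩ := Pool.Agent.Q92.AR.fe_one (tr_uc F)
  have hw : w = 1 := h3 (tr_triv F) (fun _ => rfl)
  refine ⟨U, h1, fun s => ?_, fun s hs => ?_⟩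
  · rw [h5 s, hw, one_mul]
  · have h6 := h4 s hs
    rw [if_pos (tr_triv F), pow_one] at h6
    rw [h6, LI_zeta F hs]
    unfold GG
    rw [gam_eq]
    have h7 : ((Ideal.absNorm (differentIdeal ℤ (𝓞 F)) : ℝ) : ℂ) = dd F := by
      unfold dd
      rw [NumberField.absNorm_differentIdeal (K := F)]
      congr 1
      rw [Nat.cast_natAbs, Int.cast_abs]
    have hle : pl F ≤ Module.finrank ℚ F := by
      unfold pl
      rw [Nat.card_eq_fintype_card, InfinitePlace.card_eq_nrRealPlaces_add_nrComplexPlaces,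
        ← InfinitePlace.card_add_two_mul_card_eq_rank F]
      omega
    rw [h7, zpow_natCast, ← Nat.cast_sub hle, zpow_natCast]
    ring

theorem pl_eq : pl F = InfinitePlace.nrRealPlaces F + InfinitePlace.nrComplexPlaces F := by
  unfold pl
  rw [Nat.card_eq_fintype_card, InfinitePlace.card_eq_nrRealPlaces_add_nrComplexPlaces]

theorem sub_eq : Module.finrank ℚ F - pl F = InfinitePlace.nrComplexPlaces F := by
  rw [pl_eq, ← InfinitePlace.card_add_two_mul_card_eq_rank F]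
  omega

theorem gammaR_two : Gammaℝ 2 = ((Real.pi : ℂ))⁻¹ := by
  rw [Gammaℝ_def]
  have h1 : (-(2 : ℂ) / 2) = -1 := by norm_num
  have h2 : ((2 : ℂ) / 2) = 1 := by norm_num
  rw [h1, h2, cpow_neg_one, Gamma_one, mul_one]

/-- the value at `1` of the completed zeta function -/
theorem U_one {U : ℂ → ℂ} (hU : Differentiable ℂ U)
    (h : ∀ s : ℂ, 1 < s.re → U s = s * (s - 1) * (dd F ^ (s / 2) *
      (Gammaℝ s ^ pl F * Gammaℝ (s + 1) ^ (Module.finrank ℚ F - pl F))) *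
        dedekindZeta F s) :
    U 1 = ((2 ^ pl F * (Units.regulator F : ℝ) * (classNumber F : ℝ) / (Units.torsionOrder F : ℝ) : ℝ) : ℂ) := by
  have h1 : Tendsto (fun s : ℝ => U (s : ℂ)) (𝓝[>] 1) (𝓝 (U 1)) := by
    have h2 : Continuous fun s : ℝ => U (s : ℂ) := hU.continuous.comp continuous_ofReal
    have h3 := (h2.tendsto 1).mono_left (nhdsWithin_le_nhds (s := Set.Ioi (1 : ℝ)))
    simpa using h3
  have h2 : Tendsto (fun s : ℝ => (((s - 1 : ℝ) : ℂ) * dedekindZeta F s)) (𝓝[>] 1)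
      (𝓝 ((dedekindZeta_residue F : ℝ) : ℂ)) := by
    have := NumberField.tendsto_sub_one_mul_dedekindZeta_nhdsGT F
    refine this.congr fun s => ?_
    push_cast
    rfl
  let G : ℂ → ℂ := fun s => s * (dd F ^ (s / 2) *
      (Gammaℝ s ^ pl F * Gammaℝ (s + 1) ^ (Module.finrank ℚ F - pl F)))
  have hG : ContinuousAt G 1 := by
    have g1 : ContinuousAt (fun s : ℂ => Gammaℝ s) 1 := by
      have e1 : (fun s : ℂ => Gammaℝ s) = fun s => ((Gammaℝ s)⁻¹)⁻¹ := by
        funext s; rw [inv_inv]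
      rw [e1]
      refine ContinuousAt.inv₀ differentiable_Gammaℝ_inv.continuous.continuousAt ?_
      exact inv_ne_zero (Gammaℝ_ne_zero_of_re_pos (by norm_num))
    have g2 : ContinuousAt (fun s : ℂ => Gammaℝ (s + 1)) 1 := by
      have e1 : (fun s : ℂ => Gammaℝ (s + 1)) = fun s => ((Gammaℝ (s + 1))⁻¹)⁻¹ := by
        funext s; rw [inv_inv]
      rw [e1]
      refine ContinuousAt.inv₀ (f := fun s : ℂ => (Gammaℝ (s + 1))⁻¹)
        ((differentiable_Gammaℝ_inv.comp (differentiable_id.add_const 1)).continuous.continuousAt) ?_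
      exact inv_ne_zero (Gammaℝ_ne_zero_of_re_pos (by norm_num))
    have g3 : ContinuousAt (fun s : ℂ => dd F ^ (s / 2)) 1 := by
      have : Differentiable ℂ fun s : ℂ => dd F ^ (s / 2) := fun s =>
        (differentiableAt_id.div_const 2).const_cpow (Or.inl (dd_ne F))
      exact this.continuous.continuousAt
    exact continuousAt_id.mul (g3.mul ((g1.pow _).mul (g2.pow _)))
  have h3 : Tendsto (fun s : ℝ => G s) (𝓝[>] 1) (𝓝 (G 1)) := by
    have e : Tendsto (fun s : ℝ => (s : ℂ)) (𝓝[>] 1) (𝓝 (1 : ℂ)) := by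
      have := (continuous_ofReal.tendsto 1).mono_left (nhdsWithin_le_nhds (s := Set.Ioi (1 : ℝ)))
      simpa using this
    exact (hG.tendsto).comp e
  have h4 : Tendsto (fun s : ℝ => U (s : ℂ)) (𝓝[>] 1)
      (𝓝 (G 1 * ((dedekindZeta_residue F : ℝ) : ℂ))) := by
    refine (h3.mul h2).congr' ?_
    filter_upwards [self_mem_nhdsWithin] with s hs
    have hs1 : 1 < ((s : ℂ)).re := by simpa using hs
    rw [h s hs1]
    change (s : ℂ) * (dd F ^ ((s : ℂ) / 2) * (Gammaℝ s ^ pl F * Gammaℝ (s + 1) ^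
      (Module.finrank ℚ F - pl F))) * (((s - 1 : ℝ) : ℂ) * dedekindZeta F s) = _
    push_cast
    ring
  have h5 := tendsto_nhds_unique h1 h4
  rw [h5]
  change (1 : ℂ) * (dd F ^ ((1 : ℂ) / 2) * (Gammaℝ 1 ^ pl F * Gammaℝ (1 + 1) ^
      (Module.finrank ℚ F - pl F))) * _ = _
  have h6 : (1 : ℂ) + 1 = 2 := by norm_num
  have hd : (0 : ℝ) < |(discr F : ℝ)| := abs_pos.2 (by exact_mod_cast discr_ne_zero F)
  have h7 : dd F ^ ((1 : ℂ) / 2) = ((Real.sqrt |(discr F : ℝ)| : ℝ) : ℂ) := by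
    unfold dd
    rw [Real.sqrt_eq_rpow, ofReal_cpow hd.le]
    push_cast
    rfl
  rw [h6, Gammaℝ_one, gammaR_two, one_pow, one_mul, one_mul, sub_eq, h7, pl_eq,
    dedekindZeta_residue_def]
  have hs : ((Real.sqrt |(discr F : ℝ)| : ℝ) : ℂ) ≠ 0 := by
    exact_mod_cast (Real.sqrt_pos.2 hd).ne'
  have ht : ((Units.torsionOrder F : ℝ) : ℂ) ≠ 0 := by
    exact_mod_cast (Units.torsionOrder_pos F).ne'
  have hp : (Real.pi : ℂ) ≠ 0 := by exact_mod_cast Real.pi_ne_zero
  push_cast at *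
  rw [mul_pow, pow_add, inv_pow]
  field_simp

/-- **The leading coefficient at `0`.** -/
theorem cn0 : S_CN0 := by
  intro F _ _
  classical
  obtain ⟨U, hU1, hU2, hU3⟩ := zeta_fe1 F
  have hU4 := U_one F hU1 hU3
  have hpos : (0 : ℝ) < 2 ^ pl F * (Units.regulator F : ℝ) * (classNumber F : ℝ) /
      (Units.torsionOrder F : ℝ) := by
    have a1 := Units.regulator_pos F
    have a2 : (0 : ℝ) < classNumber F := by exact_mod_cast classNumber_pos F
    have a3 : (0 : ℝ) < Units.torsionOrder F := by exact_mod_cast Units.torsionOrder_pos F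
    positivity
  have hU0 : U 0 = U 1 := by
    have h1 := hU2 0
    rw [map_zero, sub_zero, hU4, conj_ofReal, ← hU4] at h1
    exact h1
  have hU0ne : U 0 ≠ 0 := by
    rw [hU0, hU4]
    exact_mod_cast hpos.ne'
  set k := Module.finrank ℚ F - pl F with hk
  -- the continuation
  let f : ℂ → ℂ := fun s => U s * (s * (s - 1))⁻¹ * (dd F ^ (s / 2))⁻¹ *
    ((Gammaℝ s)⁻¹ ^ pl F * (Gammaℝ (s + 1))⁻¹ ^ k)
  have d1 : Differentiable ℂ fun s : ℂ => dd F ^ (s / 2) := fun s =>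
    (differentiableAt_id.div_const 2).const_cpow (Or.inl (dd_ne F))
  have d1n : ∀ s : ℂ, dd F ^ (s / 2) ≠ 0 := fun s h => dd_ne F ((cpow_eq_zero_iff _ _).1 h).1
  have d2 : Differentiable ℂ fun s : ℂ => (Gammaℝ (s + 1))⁻¹ :=
    differentiable_Gammaℝ_inv.comp (differentiable_id.add_const 1)
  have hf : Continues f (artinLS (F := F) (M := F) ∅ fun _ => 1) := by
    refine ⟨fun s _ => ?_, fun s hs => ?_⟩
    · have e1 : MeromorphicAt U s := (hU1.analyticAt s).meromorphicAt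
      have e2 : MeromorphicAt (fun s : ℂ => s * (s - 1)) s := by fun_prop
      have e3 : MeromorphicAt (fun s : ℂ => dd F ^ (s / 2)) s := (d1.analyticAt s).meromorphicAt
      have e4 : MeromorphicAt (fun s : ℂ => (Gammaℝ s)⁻¹) s :=
        (differentiable_Gammaℝ_inv.analyticAt s).meromorphicAt
      have e5 : MeromorphicAt (fun s : ℂ => (Gammaℝ (s + 1))⁻¹) s := (d2.analyticAt s).meromorphicAt
      exact ((e1.fun_mul e2.fun_inv).fun_mul e3.fun_inv).fun_mul ((e4.fun_pow _).fun_mul (e5.fun_pow _))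
    · have h1 : artinLS (F := F) (M := F) ∅ (fun _ => 1) s = dedekindZeta F s := by
        have h2 := artinLS_lin (F := F) (M := F) ∅ 1 s
        have h3 : (fun g : F ≃ₐ[F] F => (((1 : (F ≃ₐ[F] F) →* ℂˣ) g : ℂˣ) : ℂ)) = fun _ => 1 := by
          funext g
          rfl
        rw [h3] at h2
        rw [h2, zeta_eq_LP hs]
        have h4 : {w : HeightOneSpectrum (𝓞 F) | ¬ InS (∅ : Finset (HeightOneSpectrum (𝓞 F))) w} =
            Set.univ := by
          ext w
          refine ⟨fun _ => Set.mem_univ _, fun _ h => ?_⟩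
          obtain ⟨u, hu, -⟩ := h
          exact absurd hu (Finset.notMem_empty u)
        rw [h4]
        rfl
      rw [h1]
      change U s * (s * (s - 1))⁻¹ * (dd F ^ (s / 2))⁻¹ *
        ((Gammaℝ s)⁻¹ ^ pl F * (Gammaℝ (s + 1))⁻¹ ^ k) = _
      rw [hU3 s hs]
      have g1 : Gammaℝ s ≠ 0 := Gammaℝ_ne_zero_of_re_pos (by linarith)
      have g2 : Gammaℝ (s + 1) ≠ 0 := Gammaℝ_ne_zero_of_re_pos (by
        rw [add_re, one_re]; linarith)
      have g3 : s ≠ 0 := by
        intro h; rw [h, zero_re] at hs; linarith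
      have g4 : s - 1 ≠ 0 := by
        intro h
        rw [sub_eq_zero.1 h, one_re] at hs; linarith
      have g5 := d1n s
      rw [inv_pow, inv_pow]
      field_simp
  -- its trailing coefficient
  let A : ℂ → ℂ := fun s => U s * (s - 1)⁻¹ * (dd F ^ (s / 2))⁻¹ *
    ((2 * (Real.pi : ℂ) ^ (-s / 2) * Gamma (s / 2 + 1))⁻¹ ^ pl F * (Gammaℝ (s + 1))⁻¹ ^ k)
  have hG1 : ∀ s : ℂ, s ≠ 0 → (Gammaℝ s)⁻¹ =
      s * (2 * (Real.pi : ℂ) ^ (-s / 2) * Gamma (s / 2 + 1))⁻¹ := by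
    intro s hs
    rw [Gammaℝ_def, Gamma_add_one _ (div_ne_zero hs two_ne_zero)]
    by_cases hz : Gamma (s / 2) = 0
    · rw [hz]; simp
    have hp : (Real.pi : ℂ) ^ (-s / 2) ≠ 0 := fun h =>
      (by exact_mod_cast Real.pi_ne_zero : (Real.pi : ℂ) ≠ 0) ((cpow_eq_zero_iff _ _).1 h).1
    field_simp
  have hA0 : A 0 = - (U 0 / 2 ^ pl F) := by
    change U 0 * ((0 : ℂ) - 1)⁻¹ * (dd F ^ ((0 : ℂ) / 2))⁻¹ *
      ((2 * (Real.pi : ℂ) ^ (-(0 : ℂ) / 2) * Gamma ((0 : ℂ) / 2 + 1))⁻¹ ^ pl F *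
        (Gammaℝ ((0 : ℂ) + 1))⁻¹ ^ k) = _
    simp only [zero_div, neg_zero, zero_add, cpow_zero, Gamma_one, Gammaℝ_one, zero_sub, inv_one,
      one_pow, mul_one, inv_pow]
    field_simp
  have hA : AnalyticAt ℂ A 0 := by
    have e1 : AnalyticAt ℂ U 0 := hU1.analyticAt 0
    have e2 : AnalyticAt ℂ (fun s : ℂ => (s - 1)⁻¹) 0 :=
      (analyticAt_id.sub analyticAt_const).fun_inv (by simp)
    have e3 : AnalyticAt ℂ (fun s : ℂ => (dd F ^ (s / 2))⁻¹) 0 :=
      (d1.analyticAt 0).fun_inv (d1n 0)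
    have e5 : AnalyticAt ℂ (fun s : ℂ => (Gammaℝ (s + 1))⁻¹) 0 := d2.analyticAt 0
    have e6 : AnalyticAt ℂ (fun s : ℂ => (2 * (Real.pi : ℂ) ^ (-s / 2) * Gamma (s / 2 + 1))) 0 := by
      have q1 : AnalyticAt ℂ (fun s : ℂ => (Real.pi : ℂ) ^ (-s / 2)) 0 := by
        have : Differentiable ℂ fun s : ℂ => (Real.pi : ℂ) ^ (-s / 2) := fun s =>
          (differentiableAt_id.neg.div_const 2).const_cpow
            (Or.inl (by exact_mod_cast Real.pi_ne_zero))
        exact this.analyticAt 0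
      have q2 : AnalyticAt ℂ (fun s : ℂ => Gamma (s / 2 + 1)) 0 := by
        have q3 : (fun s : ℂ => Gamma (s / 2 + 1)) = fun s => ((Gamma (s / 2 + 1))⁻¹)⁻¹ := by
          funext s; rw [inv_inv]
        rw [q3]
        have q4 : Differentiable ℂ fun s : ℂ => (Gamma (s / 2 + 1))⁻¹ :=
          differentiable_one_div_Gamma.comp ((differentiable_id.div_const 2).add_const 1)
        refine (q4.analyticAt 0).fun_inv ?_
        rw [zero_div, zero_add, Gamma_one, inv_one]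
        exact one_ne_zero
      exact (analyticAt_const.mul q1).mul q2
    have e7 : AnalyticAt ℂ (fun s : ℂ => (2 * (Real.pi : ℂ) ^ (-s / 2) * Gamma (s / 2 + 1))⁻¹) 0 := by
      refine e6.fun_inv ?_
      rw [neg_zero, zero_div, cpow_zero, zero_add, Gamma_one]
      norm_num
    exact ((e1.mul e2).mul e3).mul ((e7.pow _).mul (e5.pow _))
  have hAne : A 0 ≠ 0 := by
    rw [hA0]
    exact neg_ne_zero.2 (div_ne_zero hU0ne (pow_ne_zero _ two_ne_zero))
  have hlead : leading (F := F) (M := F) ∅ (fun _ => 1) = A 0 := by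
    have h1 := cont_spec (g := artinLS (F := F) (M := F) ∅ fun _ => 1) ⟨f, hf⟩
    change meromorphicTrailingCoeffAt (cont (artinLS (F := F) (M := F) ∅ fun _ => 1)) 0 = _
    rw [meromorphicTrailingCoeffAt_congr_nhdsNE (h1.eventuallyEq hf (fun s _ => rfl) 0)]
    refine hA.meromorphicTrailingCoeffAt_of_ne_zero_of_eq_nhdsNE (n := (pl F : ℤ) - 1) hAne ?_
    filter_upwards [self_mem_nhdsWithin] with s hs
    have hs0 : s ≠ 0 := hs
    rw [sub_zero, zpow_sub₀ hs0, zpow_natCast, zpow_one, smul_eq_mul]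
    change U s * (s * (s - 1))⁻¹ * (dd F ^ (s / 2))⁻¹ *
        ((Gammaℝ s)⁻¹ ^ pl F * (Gammaℝ (s + 1))⁻¹ ^ k) = _
    rw [hG1 s hs0, mul_pow, mul_inv]
    change _ = s ^ pl F / s * (U s * (s - 1)⁻¹ * (dd F ^ (s / 2))⁻¹ *
      ((2 * (Real.pi : ℂ) ^ (-s / 2) * Gamma (s / 2 + 1))⁻¹ ^ pl F * (Gammaℝ (s + 1))⁻¹ ^ k))
    rw [div_eq_mul_inv]
    ring
  refine ⟨-((classNumber F : ℚ) / (Units.torsionOrder F : ℚ)), ?_, ?_⟩
  · refine neg_ne_zero.2 (div_ne_zero ?_ ?_)
    · exact_mod_cast (classNumber_pos F).ne'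
    · exact_mod_cast (Units.torsionOrder_pos F).ne'
  · rw [hlead, hA0, hU0, hU4]
    have ht : ((Units.torsionOrder F : ℝ) : ℂ) ≠ 0 := by
      exact_mod_cast (Units.torsionOrder_pos F).ne'
    push_cast at *
    field_simp

end

end Pool.Agent.H896.SI
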