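import Pool.Graph.R_pool_sql_team_seeded_3997aac3.Q20.SI.Row2

/-!
# The cyclic cases: definitions
-/

set_option autoImplicit false
set_option linter.unusedSectionVars false

namespace Pool.Agent.H896.SI

open NumberField IsDedekindDomain Pool.Agent.Q20.RS Pool.Agent.Q20.SI

/-- the prime `p` of `E` is inert in the Galois extension `L`: it is unramified and the primes of `L`
above `p` are fixed by all elements of the Galois group -/
def Inert (L : Type) {E : Type} [Field E] [NumberField E] [Field L] [NumberField L] [Algebra E L]
    (p : HeightOneSpectrum (𝓞 E)) : Prop :=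
  Unrm L p ∧ ∀ P : HeightOneSpectrum (𝓞 L), P.under (𝓞 E) = p → ∀ g : L ≃ₐ[E] L, pra g P = P

/-- **The unramified case over `F`**: the conjecture for the cyclic extensions `L/E` which are
unramified at all finite places, `E` a finite extension of `F`, and the sets `S` which consist of the
archimedean places and one prime, inert in `L` -/
def UnramifiedInert (F : Type) [Field F] [NumberField F] : Prop :=
  ∀ (E L : Type) [Field E] [NumberField E] [Algebra F E] [Field L] [NumberField L] [Algebra E L]
    [IsGalois E L] (D : OrderData E L), IsCyclic (L ≃ₐ[E] L) →
    (∀ p : HeightOneSpectrum (𝓞 E), Unrm L p) →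
    (∃ p : HeightOneSpectrum (𝓞 E), Inert L p ∧ D.S = {p}) → D.Q1

/-- **The odd case over `F`**: the conjecture for the cyclic extensions `L/F` with an automorphism
`c ≠ 1` which is the complex conjugation at all places of `L` above the real places of `F` (if `F` is
totally real: `L` is a CM field), and the sets `S` which consist of the archimedean places, the
ramified primes and one inert prime; then the split places are the complex places of `F` -/
def OddCyclic (F : Type) [Field F] [NumberField F] : Prop :=
  ∀ (L : Type) [Field L] [NumberField L] [Algebra F L] [IsGalois F L] (D : OrderData F L),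
    IsCyclic (L ≃ₐ[F] L) →
    (∃ c : L ≃ₐ[F] L, c ≠ 1 ∧ ∀ v : InfinitePlace L, (v.comap (algebraMap F L)).IsReal →
      c • v = v) →
    (∃ p : HeightOneSpectrum (𝓞 F), Inert L p ∧ ∀ q, q ∈ D.S ↔ q = p ∨ ¬ Unrm L q) →
    D.r = InfinitePlace.nrComplexPlaces F → D.Q1

end Pool.Agent.H896.SI
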