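import Pool.Agent.H896.SI.All

/-!
# The final statements
-/

set_option autoImplicit false
set_option linter.unusedSectionVars false

namespace Pool.Agent.H896.SI

open NumberField IsDedekindDomain Pool.Agent.Q20.RS Pool.Agent.Q20.SI
open Pool.Agent.Q20.RS.RL (Twister Dihedral StarkEq)
open Pool.Agent.Q20.TR (bt)

section
variable {F : Type} [Field F] [NumberField F]

/-- Stark's equality for a linear character in terms of a totally odd twist and of characters which are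
unramified at all finite places -/
theorem odd_relation {ψ : RL.Lin (base F)} (hψ : ψ.smooth) : OddRelation ψ := by
  have hF : FinExt (base F) := fin_base
  obtain ⟨η, hη, ho⟩ := RL.exists_odd hF hψ (s := -1) (Or.inr rfl)
  refine ⟨η, hη, ho, ?_⟩
  by_cases hne : ∃ g, η.fn g ≠ 1
  · obtain ⟨d⟩ := RL.exists_dihedral hF hψ hη hne
    exact Or.inr ⟨d, fun σ => starkEq_iff_balanced hF hψ hη.smooth d σ⟩
  · push Not at hne
    exact Or.inl hne

variable {K : Type} [Field K] [NumberField K] [Algebra F K] [IsGalois F K]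

/-- **Q1 is Stark's equality** -/
theorem order_q1_iff (D : OrderData F K) : D.Q1 ↔ ∀ χ : (K ≃ₐ[F] K) →* ℂˣ, D.Exact χ →
    (∃ g, χ g ≠ 1) → ∀ σ : ℂ ≃+* ℂ, StarkFor χ σ := by
  constructor
  · intro hQ χ hex hχ σ j Ψ hΨ
    exact starkEq_of_level (stark_of_q1 (K := F) (E' := base F) D aCMP aREG aORB aEXI aRAM hQ hex
      hχ j (base_mem j) Ψ.fn hΨ σ)
  · intro h
    refine q1_of_good D fun χ hex => ?_
    by_cases hχ : ∀ g, χ g = 1
    · exact good_triv aORB aEXI aLFN cn0 aRGA aRGB aRGT D hex hχ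
    push Not at hχ
    let j : K →ₐ[F] AlgebraicClosure F := IsAlgClosed.lift
    obtain ⟨ψ, hinf, hψ⟩ := exists_infl (E := F) (E' := base F) j (base_mem j) χ
    exact good_of_stark (E' := base F) D aCMP aORB aEXI aRAM hex hχ j (base_mem j) ψ.fn hinf
      fun σ => level_of_starkEq (h χ hex hχ σ j ψ hinf)

theorem order_red (hU : UnramifiedCase F) (hM : MinimalCase F) (D : OrderData F K) : D.Q1 :=
  order_main aCMP aREG aORB aEXI aRAM aLFN cn0 aRGA aRGB aRGT aNSP aAUX aKER aUNK hU hM D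

theorem starkFor_red (hU : UnramifiedCase F) (hM : MinimalCase F) (χ : (K ≃ₐ[F] K) →* ℂˣ)
    (σ : ℂ ≃+* ℂ) : StarkFor χ σ := fun j _ hΨ =>
  all_starkEq aCMP aREG aORB aEXI aRAM aAUX aKER aUNK hU hM aLFN cn0 aRGA aRGB aNSP
    (smooth_of_infl j hΨ) σ

/-- every character of the Galois group of `K/F` has inflations, and these satisfy `OddRelation` -/
theorem infl_odd (χ : (K ≃ₐ[F] K) →* ℂˣ) (j : K →ₐ[F] AlgebraicClosure F) :
    ∃ Ψ : RL.Lin (base F), Infl (E' := base F) j Ψ.fn (cf χ) ∧ Ψ.smooth ∧ OddRelation Ψ ∧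
      ∀ Ψ' : RL.Lin (base F), Infl (E' := base F) j Ψ'.fn (cf χ) → Ψ' = Ψ := by
  obtain ⟨Ψ, hinf, hψ⟩ := exists_infl (E := F) (E' := base F) j (base_mem j) χ
  refine ⟨Ψ, hinf, hψ, odd_relation hψ, fun Ψ' h' => ?_⟩
  refine MonoidHom.ext fun g => Units.ext ?_
  obtain ⟨y, hy⟩ := exists_restr (K := F) (E := F) (E' := base F) j (base_mem j) g
  exact (h' y g hy).symm.trans (hinf y g hy)

theorem part_iff (D : PartData F K) : D.Q1 ↔ ∀ ψ : (K ≃ₐ[F] K) →* ℂˣ, D.Exact ψ →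
    ∀ σ : ℂ ≃+* ℂ, (∀ z ∈ D.E, σ z = z) → StarkFor ψ σ :=
  part_q1_iff D aCMP aREG aORB aEXI aRAM

theorem one_iff (D : RankOneData F K) : D.Q1 ↔ ∀ χ : (K ≃ₐ[F] K) →* ℂˣ, D.Exact χ →
    (∃ g, χ g ≠ 1) → ∀ σ : ℂ ≃+* ℂ, StarkFor χ σ :=
  one_q1_iff D aCMP aREG aORB aEXI aRAM aLFN cn0 aRGA aRGB aRGT

theorem mix_iff (D : MixData F K) :
    D.Q1 ↔ ∀ σ : ℂ ≃+* ℂ, (∀ g, σ (cf D.χ g) = cf D.χ g) → StarkChar D.χ σ :=
  mix_q1_iff aCMP aREG aORB aEXI aRAM D

theorem mix_conj_iff (D : MixData F K) : D.Q1Conj ↔ ∀ σ : ℂ ≃+* ℂ, StarkChar D.χ σ :=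
  mix_q1conj_iff aCMP aREG aORB aEXI aRAM D

end

end Pool.Agent.H896.SI
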