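import Pool.Agent.H896.SI.Sharp

/-!
# Inflations do not depend on the embedding
-/

set_option autoImplicit false
set_option linter.unusedSectionVars false

namespace Pool.Agent.H896.SI

open NumberField IsDedekindDomain Pool.Agent.Q20.RS Pool.Agent.Q20.SI
open Pool.Agent.Q20.RS.RL (Twister Dihedral StarkEq)
open Pool.Agent.Q20.TR (bt)

section
variable {F : Type} [Field F] [NumberField F]
variable {K : Type} [Field K] [NumberField K] [Algebra F K] [IsGalois F K]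

theorem exists_aut (j j' : K →ₐ[F] AlgebraicClosure F) :
    ∃ γ : K ≃ₐ[F] K, ∀ x, j' x = j (γ x) := by
  let A : Algebra K (AlgebraicClosure F) := j.toRingHom.toAlgebra
  have t : IsScalarTower F K (AlgebraicClosure F) :=
    IsScalarTower.of_algebraMap_eq fun x => (j.commutes x).symm
  refine ⟨Normal.algHomEquivAut F (AlgebraicClosure F) K j', fun x => ?_⟩
  have h := (Normal.algHomEquivAut F (AlgebraicClosure F) K).symm_apply_apply j'
  have h2 := congrArg (fun f : K →ₐ[F] AlgebraicClosure F => f x) h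
  exact h2.symm

theorem infl_unique {χ : (K ≃ₐ[F] K) →* ℂˣ} {j j' : K →ₐ[F] AlgebraicClosure F}
    {Ψ Ψ' : RL.Lin (base F)} (h : Infl (E' := base F) j Ψ.fn (cf χ))
    (h' : Infl (E' := base F) j' Ψ'.fn (cf χ)) : Ψ' = Ψ := by
  obtain ⟨γ, hγ⟩ := exists_aut j j'
  refine MonoidHom.ext fun g => Units.ext ?_
  obtain ⟨y, hy⟩ := exists_restr (K := F) (E := F) (E' := base F) j (base_mem j) g
  have h1 := h' (γ⁻¹ * y * γ) g fun x => by
    rw [hγ, hγ]
    have e1 : γ ((γ⁻¹ * y * γ) x) = y (γ x) := by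
      change γ (γ.symm (y (γ x))) = _
      rw [AlgEquiv.apply_symm_apply]
    rw [e1, hy]
  have h2 := h y g hy
  have h3 : cf χ (γ⁻¹ * y * γ) = cf χ y := by
    unfold cf
    rw [map_mul, map_mul, map_inv, mul_comm, mul_inv_cancel_left]
  exact (h1.symm.trans h3).trans h2

theorem starkFor_iff {χ : (K ≃ₐ[F] K) →* ℂˣ} {j : K →ₐ[F] AlgebraicClosure F}
    {Ψ : RL.Lin (base F)} (h : Infl (E' := base F) j Ψ.fn (cf χ)) (σ : ℂ ≃+* ℂ) :
    StarkFor χ σ ↔ StarkEq Ψ.fn σ :=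
  ⟨fun h1 => h1 j Ψ h, fun h1 _ _ h' => (infl_unique h h') ▸ h1⟩

theorem starkChar_iff {χ : (K ≃ₐ[F] K) →* ℂˣ} {j : K →ₐ[F] AlgebraicClosure F}
    {Ψ : RL.Lin (base F)} (h : Infl (E' := base F) j Ψ.fn (cf χ)) (σ : ℂ ≃+* ℂ) :
    StarkChar χ σ ↔ StarkEq Ψ.fn σ :=
  ⟨fun h1 => h1 j Ψ h, fun h1 _ _ h' => (infl_unique h h') ▸ h1⟩

/-- a complex conjugation at a real place of `K` -/
theorem exists_cc (v : InfinitePlace K) (hv : v.IsReal) (j : K →ₐ[F] AlgebraicClosure F) :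
    ∃ t : Gal(AlgebraicClosure F/F), CCj t ∧ ∀ x : K, t (j x) = j x := by
  let A : Algebra K (AlgebraicClosure F) := j.toRingHom.toAlgebra
  have t : IsScalarTower F K (AlgebraicClosure F) :=
    IsScalarTower.of_algebraMap_eq fun x => (j.commutes x).symm
  let B : Algebra K ℂ := v.embedding.toAlgebra
  have hint : Algebra.IsAlgebraic K (AlgebraicClosure F) :=
    Algebra.IsAlgebraic.tower_top (K := F) K
  let ι : AlgebraicClosure F →ₐ[K] ℂ := IsAlgClosed.lift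
  have hι : ∀ x : K, ι (j x) = v.embedding x := fun x => ι.commutes x
  have hv' : ∀ x : K, (starRingEnd ℂ) (v.embedding x) = v.embedding x := fun x => by
    have h1 : ComplexEmbedding.IsReal v.embedding := InfinitePlace.isReal_iff.1 hv
    exact congrArg (fun f : K →+* ℂ => f x) h1
  obtain ⟨c₀, hc₀⟩ := Pool.Agent.Q246.RP.exists_conj (K := F) (ι : AlgebraicClosure F →+* ℂ)
    (fun k => by
      have h1 : (ι : AlgebraicClosure F →+* ℂ) (algebraMap F (AlgebraicClosure F) k) =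
          v.embedding (algebraMap F K k) := by
        have h2 := hι (algebraMap F K k)
        rw [j.commutes] at h2
        exact h2
      rw [h1, hv'])
  let c : Gal(AlgebraicClosure F/F) :=
    AlgEquiv.ofBijective c₀ (Algebra.IsAlgebraic.algHom_bijective c₀)
  have hc : ∀ x, (ι : AlgebraicClosure F →+* ℂ) (c x) =
      (starRingEnd ℂ) ((ι : AlgebraicClosure F →+* ℂ) x) := hc₀
  refine ⟨c, ⟨ι, hc⟩, fun x => ?_⟩
  have h1 := hc (j x)
  have h2 : (ι : AlgebraicClosure F →+* ℂ) (j x) = v.embedding x := hι x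
  rw [h2, hv', ← h2] at h1
  exact (ι : AlgebraicClosure F →+* ℂ).injective h1

/-- **Mixed signature**: the relation with a totally odd twist and unramified characters -/
theorem mix_rel (D : MixData F K) : ∃ (j : K →ₐ[F] AlgebraicClosure F) (Ψ η : RL.Lin (base F)),
    Infl (E' := base F) j Ψ.fn (cf D.χ) ∧ Twister Ψ η ∧ (Ψ.mul η).parity (-1) ∧
      ∃ d : Dihedral Ψ η,
        (D.Q1 ↔ ∀ σ : ℂ ≃+* ℂ, (∀ g, σ (cf D.χ g) = cf D.χ g) → Balanced d σ) ∧
        (D.Q1Conj ↔ ∀ σ : ℂ ≃+* ℂ, Balanced d σ) := by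
  let j : K →ₐ[F] AlgebraicClosure F := IsAlgClosed.lift
  obtain ⟨Ψ, hinf, hψ⟩ := exists_infl (E := F) (E' := base F) j (base_mem j) D.χ
  have hF : FinExt (base F) := fin_base
  obtain ⟨η, hη, ho⟩ := RL.exists_odd hF hψ (s := -1) (Or.inr rfl)
  have hne : ∃ g, η.fn g ≠ 1 := by
    obtain ⟨t, ht, htK⟩ := exists_cc (F := F) D.v D.real j
    have htF : t ∈ (base F).fixingSubgroup := mem_bt t
    have h1 := ho ⟨t, htF⟩ ht
    have h2 : Ψ.fn ⟨t, htF⟩ = 1 := by
      have h3 := hinf 1 ⟨t, htF⟩ fun x => (htK x).symm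
      rw [← h3]
      unfold cf
      rw [map_one, Units.val_one]
    refine ⟨⟨t, htF⟩, fun h3 => ?_⟩
    have h4 : (Ψ.mul η).fn ⟨t, htF⟩ = Ψ.fn ⟨t, htF⟩ * η.fn ⟨t, htF⟩ := by
      change (((_ * _ : ℂˣ)) : ℂ) = _
      rw [Units.val_mul]
      rfl
    rw [h4, h2, h3, mul_one] at h1
    norm_num at h1
  obtain ⟨d⟩ := RL.exists_dihedral hF hψ hη hne
  refine ⟨j, Ψ, η, hinf, hη, ho, d, (mix_iff D).trans ?_, (mix_conj_iff D).trans ?_⟩
  · exact forall_congr' fun σ => imp_congr_right fun _ =>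
      (starkChar_iff hinf σ).trans (starkEq_iff_balanced hF hψ hη.smooth d σ)
  · exact forall_congr' fun σ =>
      (starkChar_iff hinf σ).trans (starkEq_iff_balanced hF hψ hη.smooth d σ)

/-- the relation for any character of `Gal(K/F)` -/
theorem any_rel (χ : (K ≃ₐ[F] K) →* ℂˣ) : ∃ (j : K →ₐ[F] AlgebraicClosure F)
    (Ψ η : RL.Lin (base F)), Infl (E' := base F) j Ψ.fn (cf χ) ∧ Twister Ψ η ∧
      (Ψ.mul η).parity (-1) ∧ ((∀ g, η.fn g = 1) ∨
        ∃ d : Dihedral Ψ η, ∀ σ : ℂ ≃+* ℂ, StarkFor χ σ ↔ Balanced d σ) := by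
  let j : K →ₐ[F] AlgebraicClosure F := IsAlgClosed.lift
  obtain ⟨Ψ, hinf, -, ⟨η, h1, h2, h3⟩, -⟩ := infl_odd χ j
  refine ⟨j, Ψ, η, hinf, h1, h2, h3.imp id fun ⟨d, hd⟩ => ⟨d, fun σ => ?_⟩⟩
  exact (starkFor_iff hinf σ).trans (hd σ)

end

end Pool.Agent.H896.SI
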