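import Pool.Agent.H896.SI.Fin
import Pool.Agent.H896.SI.Def

/-!
# The reduction to cyclic extensions with explicit sets of places
-/

set_option autoImplicit false
set_option linter.unusedSectionVars false

namespace Pool.Agent.H896.SI

open NumberField IsDedekindDomain Pool.Agent.Q20.RS Pool.Agent.Q20.SI
open Pool.Agent.Q20.RS.RL (Twister Dihedral StarkEq)
open Pool.Agent.Q20.TR (bt)

section
variable {E M : Type} [Field E] [NumberField E] [Field M] [NumberField M] [Algebra E M]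
  [IsGalois E M]

/-- a prime which is inert in a cyclic extension -/
theorem exists_inert (hc : IsCyclic (M ≃ₐ[E] M)) (S : Finset (HeightOneSpectrum (𝓞 E)))
    (hS : ∀ p : HeightOneSpectrum (𝓞 E), ¬ Unrm M p → p ∈ S) :
    ∃ P : HeightOneSpectrum (𝓞 M), P.under (𝓞 E) ∉ S ∧ Inert M (P.under (𝓞 E)) ∧
      ∀ g : M ≃ₐ[E] M, pra g P = P := by
  obtain ⟨y, hy⟩ := hc.exists_generator
  obtain ⟨P, hPS, hP⟩ := aNSP E M y S
  have hfix : ∀ g : M ≃ₐ[E] M, pra g P = P := by
    intro g
    have hz : ∀ n : ℤ, pra (y ^ n) P = P := by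
      have hinv : pra y⁻¹ P = P := by
        conv_lhs => rw [← hP]
        rw [← pra_mul, inv_mul_cancel, pra_one]
      intro n
      induction n using Int.induction_on with
      | zero => rw [zpow_zero, pra_one]
      | succ n ih => rw [zpow_add_one, pra_mul, hP, ih]
      | pred n ih => rw [zpow_sub_one, pra_mul, hinv, ih]
    obtain ⟨n, rfl⟩ := Subgroup.mem_zpowers_iff.1 (hy g)
    exact hz n
  refine ⟨P, hPS, ⟨by_contra fun h => hPS (hS _ h), fun Q hQ g => ?_⟩, hfix⟩
  obtain ⟨h, hh⟩ := conj_primes aORB (P := P) (Q := Q) hQ.symm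
  have h1 : Q = P := by rw [← hh, hfix]
  rw [h1, hfix]

end

section
variable {K : Type} [Field K] [NumberField K]

/-- the unramified characters -/
theorem unram_starkEq' (hU : UnramifiedInert K) {E' : Pool.Agent.Q20.RS.Sub K}
    (hE : FinExt E') {ψ : RL.Lin E'} (hψ : ψ.smooth) (hu : ψ.unram) (σ : ℂ ≃+* ℂ) :
    StarkEq ψ.fn σ := by
  classical
  by_cases htr : ∀ g, ψ.fn g = 1
  · exact triv_starkEq aORB aEXI aLFN cn0 aRGA aRGB hE htr σ
  obtain ⟨E, M, _, _, _, _, _, _, _, _, _, j, χ, hm, hinf, hinj, -⟩ := aKER K E' hE ψ hψ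
  have hnt : ∃ y, χ y ≠ 1 := by
    by_contra hn
    push Not at hn
    refine htr fun g => ?_
    have h1 : ∀ y : M ≃ₐ[E] M, y = 1 := fun y => hinj ((hn y).trans (map_one χ).symm)
    have h2 := hinf 1 g fun x => by
      obtain ⟨e, rfl⟩ := surj_of_triv h1 x
      have h3 : j (algebraMap E M e) ∈ E' := (hm _).2 ⟨e, rfl⟩
      exact ((IntermediateField.mem_fixingSubgroup_iff _ _).1 g.2 _ h3).symm
    rw [← h2]
    unfold cf
    rw [map_one, Units.val_one]
  have hur := aUNK K E M E' hE j hm ψ hψ χ hinf hinj hu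
  obtain ⟨y, hy⟩ := hnt
  have hcyc : IsCyclic (M ≃ₐ[E] M) := isCyclic_of_inj hinj
  obtain ⟨P, -, hin, hP⟩ := exists_inert hcyc ∅ fun p hp => absurd (hur p) hp
  obtain ⟨D, hDS, hex⟩ := exists_data aAUX {P.under (𝓞 E)} (fun p hp => absurd (hur p) hp) hinj
    ⟨.inl P, mem_abv.2 (Finset.mem_singleton_self _), y, congrArg Sum.inl (hP y), fun h => hy (by
      rw [h, map_one])⟩
  have hQ := hU E M D hcyc hur ⟨_, hin, hDS⟩
  exact starkEq_of_level (stark_of_q1 D aCMP aREG aORB aEXI aRAM hQ hex ⟨y, hy⟩ j hm ψ.fn hinf σ)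

end

section
variable {E M : Type} [Field E] [NumberField E] [Field M] [NumberField M] [Algebra E M]
  {K : Type} [Field K] [NumberField K] [Algebra K E] [Algebra K M]
  [IsScalarTower K E M] [IsGalois E M] {E' : Pool.Agent.Q20.RS.Sub K}

/-- odd characters at the archimedean places above real places -/
theorem odd_conj (j : M →ₐ[K] AlgebraicClosure K)
    (hm : ∀ z, z ∈ E' ↔ ∃ x : E, j (algebraMap E M x) = z)
    {ψ : RL.Lin E'} {χ : (M ≃ₐ[E] M) →* ℂˣ} (hψ : Infl (E' := E') j ψ.fn (cf χ))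
    (ho : ψ.parity (-1)) (v : InfinitePlace M) (hv : (v.comap (algebraMap E M)).IsReal) :
    ∃ y : M ≃ₐ[E] M, y • v = v ∧ cf χ y = -1 := by
  let A : Algebra M (AlgebraicClosure K) := j.toRingHom.toAlgebra
  have t : IsScalarTower K M (AlgebraicClosure K) :=
    IsScalarTower.of_algebraMap_eq fun x => (j.commutes x).symm
  let B : Algebra M ℂ := v.embedding.toAlgebra
  have hint : Algebra.IsAlgebraic M (AlgebraicClosure K) :=
    Algebra.IsAlgebraic.tower_top (K := K) M
  let ι : AlgebraicClosure K →ₐ[M] ℂ := IsAlgClosed.lift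
  have hι : ∀ x : M, ι (j x) = v.embedding x := fun x => ι.commutes x
  have hv' : ComplexEmbedding.IsReal (v.embedding.comp (algebraMap E M)) := by
    rw [← InfinitePlace.isReal_mk_iff, ← InfinitePlace.comap_mk, InfinitePlace.mk_embedding]
    exact hv
  have hre : ∀ z ∈ E', (starRingEnd ℂ) (ι z) = ι z := by
    intro z hz
    obtain ⟨x, rfl⟩ := (hm z).1 hz
    rw [hι]
    exact congrArg (fun f : E →+* ℂ => f x) hv'
  obtain ⟨c₀, hc₀⟩ := Pool.Agent.Q246.RP.exists_conj (K := K) (ι : AlgebraicClosure K →+* ℂ)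
    (fun k => hre _ (E'.algebraMap_mem k))
  let c : Gal(AlgebraicClosure K/K) :=
    AlgEquiv.ofBijective c₀ (Algebra.IsAlgebraic.algHom_bijective c₀)
  have hc : ∀ x, (ι : AlgebraicClosure K →+* ℂ) (c x) =
      (starRingEnd ℂ) ((ι : AlgebraicClosure K →+* ℂ) x) := hc₀
  have hcE : c ∈ E'.fixingSubgroup := by
    rw [IntermediateField.mem_fixingSubgroup_iff]
    intro z hz
    have h1 := hc z
    have h2 := hre z hz
    exact (ι : AlgebraicClosure K →+* ℂ).injective (h1.trans h2)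
  obtain ⟨y, hy⟩ := exists_restr j hm ⟨c, hcE⟩
  have h1 : cf χ y = -1 := by
    rw [hψ y ⟨c, hcE⟩ hy]
    exact ho ⟨c, hcE⟩ ⟨ι, hc⟩
  refine ⟨y, ?_, h1⟩
  have h2 : ∀ z : M, v (y z) = v z := by
    intro z
    rw [← InfinitePlace.norm_embedding_eq, ← InfinitePlace.norm_embedding_eq, ← hι, hy, ← hι]
    have h3 := hc (j z)
    change ‖ι (c (j z))‖ = _
    have h4 : ι (c (j z)) = (starRingEnd ℂ) (ι (j z)) := h3
    rw [h4, RCLike.norm_conj]
  ext x
  rw [InfinitePlace.smul_apply, ← h2]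
  congr 1
  exact y.apply_symm_apply x

end

section
variable {F : Type} [Field F] [NumberField F]

/-- the characters which are `-1` at the complex conjugations -/
theorem min_starkEq' (hM : OddCyclic F) {ψ : RL.Lin (base F)} (hψ : ψ.smooth)
    (ho : ψ.parity (-1)) (σ : ℂ ≃+* ℂ) : StarkEq ψ.fn σ := by
  classical
  by_cases htr : ∀ g, ψ.fn g = 1
  · exact triv_starkEq aORB aEXI aLFN cn0 aRGA aRGB fin_base htr σ
  obtain ⟨M, _, _, _, _, j, χ, hinf, hinj⟩ := kerf_base aKER ψ hψ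
  have hm := base_mem (F := F) j
  have hfin : {v : HeightOneSpectrum (𝓞 F) | ¬ Unrm M v}.Finite :=
    Pool.Agent.Q92.AR.ramified_finite
  have hnt : ∃ y, χ y ≠ 1 := by
    by_contra hn
    push Not at hn
    refine htr fun g => ?_
    obtain ⟨y, hy⟩ := exists_restr (K := F) (E := F) (E' := base F) j hm g
    rw [← hinf y g hy]
    unfold cf
    rw [hn, Units.val_one]
  obtain ⟨y, hy⟩ := hnt
  have hcyc : IsCyclic (M ≃ₐ[F] M) := isCyclic_of_inj hinj
  obtain ⟨P, -, hin, hP'⟩ := exists_inert hcyc hfin.toFinset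
    fun p hp => hfin.mem_toFinset.2 hp
  have hP := hP' y
  let S : Finset (HeightOneSpectrum (𝓞 F)) := insert (P.under (𝓞 F)) hfin.toFinset
  obtain ⟨D, hDS, hex⟩ := exists_data aAUX S
    (fun p hp => Finset.mem_insert_of_mem (hfin.mem_toFinset.2 hp)) hinj
    ⟨.inl P, mem_abv.2 (Finset.mem_insert_self _ _), y, congrArg Sum.inl hP, fun h => hy (by
      rw [h, map_one])⟩
  have hr : D.r = InfinitePlace.nrComplexPlaces F := by
    refine r_eq aORB D hinj fun v hv ht => ?_
    rcases v with Q | v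
    · exfalso
      have h1 : Q.under (𝓞 F) ∈ S := by
        rw [← hDS]
        exact mem_abv.1 hv
      rcases Finset.mem_insert.1 h1 with h2 | h2
      · obtain ⟨g, hg⟩ := conj_primes aORB (P := P) (Q := Q) h2.symm
        have h3 : Triv χ (pact g (.inl P : Pl M)) := by
          have h4 : pact g (.inl P : Pl M) = .inl Q := congrArg Sum.inl hg
          rw [h4]
          exact ht
        exact hy (triv_pact g h3 y (congrArg Sum.inl hP))
      · obtain ⟨g, hgP, hg1⟩ := ram_place aORB Q (hfin.mem_toFinset.1 h2)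
        refine hg1 (hinj ?_)
        rw [map_one]
        exact ht g (congrArg Sum.inl hgP)
    · refine ⟨v, rfl, ?_⟩
      rw [← InfinitePlace.not_isReal_iff_isComplex]
      exact fun hre => odd_real (K := F) (E := F) (E' := base F) j hm hinf ho v hre ht
  have hcc : ∃ c : M ≃ₐ[F] M, c ≠ 1 ∧ ∀ v : InfinitePlace M,
      (v.comap (algebraMap F M)).IsReal → c • v = v := by
    by_cases hre : ∃ v : InfinitePlace M, (v.comap (algebraMap F M)).IsReal
    · obtain ⟨v₀, hv₀⟩ := hre
      obtain ⟨c, -, hc⟩ := odd_conj (K := F) (E := F) (E' := base F) j hm hinf ho v₀ hv₀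
      refine ⟨c, fun h => ?_, fun v hv => ?_⟩
      · rw [h] at hc
        unfold cf at hc
        rw [map_one] at hc
        norm_num at hc
      · obtain ⟨c', hc', hc1⟩ := odd_conj (K := F) (E := F) (E' := base F) j hm hinf ho v hv
        have h1 : c = c' := hinj (Units.ext (hc.trans hc1.symm))
        rw [h1, hc']
    · exact ⟨y, fun h => hy (by rw [h, map_one]), fun v hv => absurd ⟨v, hv⟩ hre⟩
  have hQ := hM M D hcyc hcc ⟨P.under (𝓞 F), hin, fun q => by
    rw [hDS, Finset.mem_insert, hfin.mem_toFinset]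
    rfl⟩ hr
  exact starkEq_of_level (stark_of_q1 (K := F) (E' := base F) D aCMP aREG aORB aEXI aRAM hQ hex
    ⟨y, hy⟩ j hm ψ.fn hinf σ)

/-- Stark's equality for all linear characters of `Gal(F̄/F)` -/
theorem all_starkEq' (hU : UnramifiedInert F) (hM : OddCyclic F)
    {ψ : RL.Lin (base F)} (hψ : ψ.smooth) (σ : ℂ ≃+* ℂ) : StarkEq ψ.fn σ := by
  have hF : FinExt (base F) := fin_base
  obtain ⟨η, hη, ho⟩ := RL.exists_odd hF hψ (s := -1) (Or.inr rfl)
  have h1 := RL.stark_exact (K := F) σ fun E ψ hE hψ hu => unram_starkEq' hU hE hψ hu σ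
  exact (h1.1 (base F) _ η hF hψ hη).1 (min_starkEq' hM (RL.smooth_mul hψ hη.smooth) ho σ)

variable {K : Type} [Field K] [NumberField K] [Algebra F K] [IsGalois F K]

theorem starkFor_sharp (hU : UnramifiedInert F) (hM : OddCyclic F) (χ : (K ≃ₐ[F] K) →* ℂˣ)
    (σ : ℂ ≃+* ℂ) : StarkFor χ σ := fun _ _ hΨ => all_starkEq' hU hM (smooth_of_infl _ hΨ) σ

theorem starkChar_sharp (hU : UnramifiedInert F) (hM : OddCyclic F) (χ : (K ≃ₐ[F] K) →* ℂˣ)
    (σ : ℂ ≃+* ℂ) : StarkChar χ σ := fun _ _ hΨ => all_starkEq' hU hM (smooth_of_infl _ hΨ) σ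

end

end Pool.Agent.H896.SI
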